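import Mathlib
import Pool.Agent.H554R2.Sem.Defs

/-!
# Deterministic programs and fast computations
-/

set_option autoImplicit false

open Finset

namespace Pool.Agent.H554R2.Cnf

open Pool.Agent.H554R2.Sem

/-- In a deterministic program a computation can be continued in at most one way. -/
def Deterministic {V : Type} (P : NBP V) : Prop :=
  (∀ s b t t', P.edge s b t → P.edge s b t' → t = t') ∧
    ∀ s t, P.query s = none → (P.edge s true t ↔ P.edge s false t)

/-- Along `l` at most `k` variables are queried more than once, or there are at most `n + k`
queries. -/
def Fast {n : ℕ} (k : ℕ) (P : NBP (Fin n)) (l : List P.State) : Prop :=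
  (univ.filter (fun i => 2 ≤ (l.filterMap P.query).count i)).card ≤ k ∨
    (l.filterMap P.query).length ≤ n + k

end Pool.Agent.H554R2.Cnf
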