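import Mathlib
import Pool.Agent.H554R2.Cnf.SatMain
import Pool.Agent.H554R2.Cnf.FinalDefs

/-!
# The complement theorem for CNF formulas
-/

set_option autoImplicit false

open Finset

namespace Pool.Agent.H554R2.Cnf

open Pool.Agent.H554R2.Sem Pool.Agent.H554R2.Compl

theorem final : ∃ D : ℕ, 0 < D ∧ ∀ n : ℕ, ∃ F : Finset (Finset (Fin n × Bool)),
    F.card ≤ D * n ∧ (∀ c ∈ F, c.card ≤ D) ∧
    (∃ P : NBP (Fin n), Fintype.card P.State ≤ D * n + 1 ∧
      (∀ x, (∃ l, P.Accepting x l) ↔ ¬ Models F x) ∧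
      ∀ x l, P.Accepting x l → (l.filterMap P.query).length ≤ D) ∧
    (∃ P : NBP (Fin n), Deterministic P ∧ Fintype.card P.State ≤ D * n + 1 ∧
      (∀ x, (∃ l, P.Accepting x l) ↔ Models F x) ∧
      ∀ x l, P.Accepting x l → (l.filterMap P.query).length ≤ D * n) ∧
    ∀ P : NBP (Fin n), (∀ x l, P.Accepting x l → Models F x) →
      Nat.card {x // Models F x} ≤
        2 ^ (n / D) * Nat.card {x // ∃ l, P.Accepting x l ∧ Fast (n / D) P l} →
      2 ^ (n / D) ≤ Fintype.card P.State := by
  classical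
  obtain ⟨k, C, n0, hkC⟩ := mainStrong
  obtain ⟨D, hD⟩ : ∃ D : ℕ, D = 10 ^ 50 + n0 + (k + 1) * C + k := ⟨_, rfl⟩
  have hD50 : 10 ^ 50 ≤ D := by omega
  have hn0D : n0 ≤ D := by omega
  have hkD : k ≤ D := by omega
  have hCD : (k + 1) * C ≤ D := by omega
  have hDpos : 0 < D := lt_of_lt_of_le (by norm_num) hD50
  refine ⟨D, hDpos, fun n => ?_⟩
  have key : ∃ F : Finset (Finset (Fin n × Bool)), F.card ≤ C * n ∧ (∀ c ∈ F, c.card ≤ k) ∧
      ∀ P : NBP (Fin n), (∀ x l, P.Accepting x l → Models F x) →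
      Nat.card {x // Models F x} ≤
        2 ^ (n / D) * Nat.card {x // ∃ l, P.Accepting x l ∧ Fast (n / D) P l} →
      2 ^ (n / D) ≤ Fintype.card P.State := by
    rcases Nat.lt_or_ge n D with hn | hn
    · refine ⟨∅, by simp, by simp, fun P _ _ => ?_⟩
      rw [Nat.div_eq_of_lt hn]
      exact Fintype.card_pos_iff.2 ⟨P.start⟩
    · obtain ⟨F, h1, h2, h3⟩ := hkC n (hn0D.trans hn)
      refine ⟨F, h1, h2, fun P hP hl => ?_⟩
      have h4 : n / D ≤ n / 10 ^ 8 :=
        Nat.div_le_div_left (le_trans (by norm_num) hD50) (by norm_num)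
      have h5 := h3 Empty (fun e => e.elim) (lift P) (fun x l h =>
          hP x l ((lift_acc P _ x l).1 h)) (by
        refine hl.trans ?_
        refine Nat.mul_le_mul (Nat.pow_le_pow_right (by norm_num) h4) ?_
        rw [Nat.card_eq_fintype_card, Fintype.card_subtype]
        refine card_le_card (fun x hx => ?_)
        obtain ⟨l, hacc, hf⟩ := (mem_filter.1 hx).2
        unfold fastPts
        rw [mem_filter]
        refine ⟨mem_univ _, l, (lift_acc P _ x l).2 hacc, ?_⟩
        rcases hf with h | h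
        · left
          have e : reread (lift P) l
              = univ.filter (fun i => 2 ≤ (l.filterMap P.query).count i) := by
            unfold reread
            rw [lift_queries]
          rw [e]
          exact le_trans h h4
        · right
          rw [lift_queries]
          omega)
      exact (Nat.pow_le_pow_right (by norm_num) h4).trans h5
  obtain ⟨F, h1, h2, h3⟩ := key
  have h0 : (k + 1) * F.card ≤ D * n := by
    calc (k + 1) * F.card ≤ (k + 1) * (C * n) := Nat.mul_le_mul_left _ h1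
      _ = (k + 1) * C * n := by ring
      _ ≤ D * n := Nat.mul_le_mul_right _ hCD
  have hC' : C * n ≤ D * n := by
    refine Nat.mul_le_mul_right _ (le_trans ?_ hCD)
    exact Nat.le_mul_of_pos_left _ (Nat.succ_pos k)
  refine ⟨F, h1.trans hC', fun c hc => (h2 c hc).trans hkD, ?_, ?_, h3⟩
  · obtain ⟨P, hP1, hP2, hP3⟩ := violation_program k F h2
    exact ⟨P, hP1.trans (by omega), hP2, fun x l h => (hP3 x l h).trans hkD⟩
  · obtain ⟨P, hP1, hP2, hP2', hP3, hP4⟩ := evaluation_program k F h2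
    refine ⟨P, ⟨hP2, hP2'⟩, hP1.trans (by omega), hP3, fun x l h => (hP4 x l h).trans ?_⟩
    have h6 : k * F.card ≤ (k + 1) * F.card := Nat.mul_le_mul_right _ (Nat.le_succ k)
    exact h6.trans h0

end Pool.Agent.H554R2.Cnf
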